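import Pool.Agent.J4H16.LI.Stm

/-! Project LI: the piece CYC. -/

set_option autoImplicit false

open Set MeasureTheory Filter Topology
open scoped ENNReal

namespace Pool.Agent.J4H36.LI

open Pool.Agent.J4H16.LI

variable {Φ : ℝ → ℝ → ℝ} {g : ℝ → ℝ} {s : ℝ} {γ : ℝ → ℝ × ℝ} {T : ℝ}

lemma g_zero (h : Sys Φ g) : g 0 = 0 := by
  have hc : Continuous g := h.smg.continuous
  have h1 : Tendsto g (𝓝[>] 0) (𝓝 (g 0)) := hc.continuousAt.tendsto.mono_left nhdsWithin_le_nhds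
  have h2 : Tendsto g (𝓝[<] 0) (𝓝 (g 0)) := hc.continuousAt.tendsto.mono_left nhdsWithin_le_nhds
  refine le_antisymm ?_ ?_
  · refine le_of_tendsto h2 ?_
    filter_upwards [self_mem_nhdsWithin] with x hx
    have hx' : x < 0 := hx
    have := h.posg x hx'.ne
    nlinarith
  · refine ge_of_tendsto h1 ?_
    filter_upwards [self_mem_nhdsWithin] with x hx
    have hx' : 0 < x := hx
    have := h.posg x hx'.ne'
    nlinarith

lemma Φ_zero (h : Sys Φ g) : Φ 0 0 = 0 := by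
  have hc : Continuous (fun y => Φ 0 y) := by
    have := h.smΦ.continuous
    exact this.comp (continuous_const.prodMk continuous_id)
  have h1 : Tendsto (fun y => Φ 0 y) (𝓝[>] 0) (𝓝 (Φ 0 0)) :=
    hc.continuousAt.tendsto.mono_left nhdsWithin_le_nhds
  have h2 : Tendsto (fun y => Φ 0 y) (𝓝[<] 0) (𝓝 (Φ 0 0)) :=
    hc.continuousAt.tendsto.mono_left nhdsWithin_le_nhds
  refine le_antisymm ?_ ?_
  · refine le_of_tendsto h2 ?_
    filter_upwards [self_mem_nhdsWithin] with x hx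
    have hx' : x < 0 := hx
    have := h.posΦ x hx'.ne
    nlinarith
  · refine ge_of_tendsto h1 ?_
    filter_upwards [self_mem_nhdsWithin] with x hx
    have hx' : 0 < x := hx
    have := h.posΦ x hx'.ne'
    nlinarith

/-- The orbit does not pass through the origin. -/
lemma ne_zero (hU : S_UNI) (h : Sys Φ g) (hd : ∀ t, HasDerivAt γ (fld Φ g s (γ t)) t)
    (hn : ∃ a b : ℝ, γ a ≠ γ b) (t : ℝ) : γ t ≠ (0, 0) := by
  intro h0
  have hδ : ∀ t : ℝ, HasDerivAt (fun _ : ℝ => ((0, 0) : ℝ × ℝ)) (fld Φ g s (0, 0)) t := by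
    intro t
    have e : fld Φ g s (0, 0) = 0 := by
      unfold fld
      simp only [Φ_zero h, g_zero h, mul_zero, sub_zero, neg_zero]
      rfl
    rw [e]
    exact hasDerivAt_const t _
  have hu := hU Φ g h s γ (fun _ => (0, 0)) hd hδ t 0 h0
  obtain ⟨a, b, hab⟩ := hn
  apply hab
  have ha := hu (a - t)
  have hb := hu (b - t)
  rw [add_sub_cancel] at ha hb
  rw [ha, hb]

/-- The mirrored solution. -/
lemma mir_der (hd : ∀ t, HasDerivAt γ (fld Φ g s (γ t)) t) (t : ℝ) :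
    HasDerivAt (fun t => -γ t) (fld (mΦ Φ) (mg g) s (-γ t)) t := by
  have h1 := (hd t).neg
  have e : fld (mΦ Φ) (mg g) s (-γ t) = -fld Φ g s (γ t) := by
    unfold fld mΦ mg
    ext
    · simp
      ring
    · simp
  rw [e]
  exact h1

/-- The half turn on the left. -/
lemma half_mir (hH : S_HALF) (h : Sys Φ g) (hT : 0 < T)
    (hd : ∀ t, HasDerivAt γ (fld Φ g s (γ t)) t) (hp : ∀ t, γ (t + T) = γ t) (t₁ : ℝ)
    (hx : (γ t₁).1 = 0) (hy : (γ t₁).2 < 0) :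
    ∃ (t₂ B' : ℝ) (w : ℝ → ℝ), t₁ < t₂ ∧ (∀ t ∈ Ioo t₁ t₂, (γ t).1 < 0) ∧ γ t₂ = (0, B') ∧
      Arc (mΦ Φ) (mg g) s B' (-(γ t₁).2) w ∧
      γ '' Icc t₁ t₂ = {z : ℝ × ℝ | z.2 ∈ Icc (γ t₁).2 B' ∧ z.1 = -w (-z.2)} := by
  obtain ⟨t₂, B', w, h1, h2, h3, h4, h5⟩ := hH (mΦ Φ) (mg g) h.mir s (fun t => -γ t) T hT
    (mir_der hd) (fun t => by simp only [hp]) t₁ (by simp [hx]) (by simpa using hy)
  refine ⟨t₂, B', w, h1, fun t ht => ?_, ?_, ?_, ?_⟩
  · have := h2 t ht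
    simp only [Prod.fst_neg] at this
    linarith
  · have : γ t₂ = -(0, -B') := by rw [← h3, neg_neg]
    rw [this]
    simp
  · simpa using h4
  · ext z
    constructor
    · rintro ⟨t, ht, rfl⟩
      have : -γ t ∈ (fun t => -γ t) '' Icc t₁ t₂ := ⟨t, ht, rfl⟩
      rw [h5] at this
      obtain ⟨a1, a2⟩ := this
      simp only [Prod.snd_neg, Prod.fst_neg] at a1 a2
      refine ⟨⟨by linarith [a1.2], by linarith [a1.1]⟩, by linarith⟩
    · rintro ⟨a1, a2⟩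
      have : -z ∈ (fun t => -γ t) '' Icc t₁ t₂ := by
        rw [h5]
        refine ⟨⟨?_, ?_⟩, ?_⟩
        · simp only [Prod.snd_neg]; linarith [a1.2]
        · simp only [Prod.snd_neg]; linarith [a1.1]
        · simp only [Prod.snd_neg, Prod.fst_neg]; linarith
      obtain ⟨t, ht, ht'⟩ := this
      exact ⟨t, ht, neg_injective ht'⟩

/-- A full turn. -/
def Turn (Φ : ℝ → ℝ → ℝ) (g : ℝ → ℝ) (s : ℝ) (γ : ℝ → ℝ × ℝ) (t t₂ : ℝ) : Prop :=
  ∃ (t₁ B : ℝ) (u w : ℝ → ℝ), t < t₁ ∧ t₁ < t₂ ∧ (∀ τ ∈ Ioo t t₁, 0 < (γ τ).1) ∧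
    (∀ τ ∈ Ioo t₁ t₂, (γ τ).1 < 0) ∧ γ t₁ = (0, -B) ∧ 0 < B ∧ (γ t₂).1 = 0 ∧ 0 < (γ t₂).2 ∧
    Arc Φ g s B (γ t).2 u ∧ Arc (mΦ Φ) (mg g) s (γ t₂).2 B w ∧
    γ '' Icc t t₁ = {z : ℝ × ℝ | z.2 ∈ Icc (-B) (γ t).2 ∧ z.1 = u z.2} ∧
    γ '' Icc t₁ t₂ = {z : ℝ × ℝ | z.2 ∈ Icc (-B) (γ t₂).2 ∧ z.1 = -w (-z.2)}

lemma exists_turn (hH : S_HALF) (h : Sys Φ g) (hT : 0 < T)
    (hd : ∀ t, HasDerivAt γ (fld Φ g s (γ t)) t) (hp : ∀ t, γ (t + T) = γ t) (t : ℝ)
    (hx : (γ t).1 = 0) (hy : 0 < (γ t).2) : ∃ t₂, Turn Φ g s γ t t₂ := by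
  obtain ⟨t₁, B, u, h1, h2, h3, h4, h5⟩ := hH Φ g h s γ T hT hd hp t hx hy
  have hB := h4.hB
  obtain ⟨t₂, B', w, k1, k2, k3, k4, k5⟩ := half_mir hH h hT hd hp t₁ (by rw [h3])
    (by rw [h3]; simpa using hB)
  refine ⟨t₂, t₁, B, u, w, h1, k1, h2, k2, h3, hB, by rw [k3], by rw [k3]; exact k4.hB, h4, ?_,
    h5, ?_⟩
  · rw [h3] at k4
    rw [k3]
    simpa using k4
  · rw [k5, h3, k3]

/-- Turns are monotone. -/
lemma turn_mono (hC : S_CMP) (h : Sys Φ g) {t t₂ t' t₂' : ℝ} (h1 : Turn Φ g s γ t t₂)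
    (h2 : Turn Φ g s γ t' t₂') (hlt : (γ t').2 < (γ t).2) : (γ t₂').2 < (γ t₂).2 := by
  obtain ⟨t₁, B, u, w, -, -, -, -, -, -, -, -, a1, a2, -, -⟩ := h1
  obtain ⟨t₁', B', u', w', -, -, -, -, -, -, -, -, b1, b2, -, -⟩ := h2
  have c1 := (hC Φ g h s s _ _ _ _ _ _ le_rfl a1 b1 hlt.le (Or.inr hlt)).1
  exact (hC _ _ h.mir s s _ _ _ _ _ _ le_rfl a2 b2 c1.le (Or.inr c1)).1

lemma turn_no {t t₂ τ : ℝ} (h1 : Turn Φ g s γ t t₂) (hτ : τ ∈ Ioo t t₂) (hx : (γ τ).1 = 0) :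
    (γ τ).2 < 0 := by
  obtain ⟨t₁, B, u, w, -, -, a1, a2, a3, hB, -, -, -, -, -, -⟩ := h1
  rcases lt_trichotomy τ t₁ with hlt | heq | hgt
  · exact absurd hx (a1 τ ⟨hτ.1, hlt⟩).ne'
  · rw [heq, a3]
    simpa using hB
  · exact absurd hx (a2 τ ⟨hgt, hτ.2⟩).ne

/-- There is a point on the positive `y`-axis. -/
lemma exists_top (hU : S_UNI) (hH : S_HALF) (h : Sys Φ g) (hT : 0 < T)
    (hd : ∀ t, HasDerivAt γ (fld Φ g s (γ t)) t) (hp : ∀ t, γ (t + T) = γ t)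
    (hn : ∃ a b : ℝ, γ a ≠ γ b) : ∃ t, (γ t).1 = 0 ∧ 0 < (γ t).2 := by
  have hy : ∀ t, HasDerivAt (fun t => (γ t).2) (-g (γ t).1) t := fun t => by
    have := (hd t).hasFDerivAt.snd.hasDerivAt
    simpa [fld] using this
  have hc : Continuous γ := continuous_iff_continuousAt.2 fun t => (hd t).continuousAt
  have hx0 : ∃ t, (γ t).1 = 0 := by
    by_contra hne
    push Not at hne
    have hcx : Continuous (fun t => (γ t).1) := hc.fst
    have hsg : (∀ t, 0 < (γ t).1) ∨ (∀ t, (γ t).1 < 0) := by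
      by_contra hcon
      push Not at hcon
      obtain ⟨⟨a, ha⟩, ⟨b, hb⟩⟩ := hcon
      obtain ⟨c, hc⟩ := mem_range_of_exists_le_of_exists_ge hcx ⟨a, ha⟩ ⟨b, hb⟩
      exact hne c hc
    have hp0 := hp 0
    rw [zero_add] at hp0
    rcases hsg with hpos | hneg
    · have hm := strictAnti_of_hasDerivAt_neg hy (fun t => by
        have := (mul_pos_iff_of_pos_left (hpos t)).1 (h.posg _ (hpos t).ne')
        linarith)
      have h1 := hm hT
      simp only [hp0, lt_self_iff_false] at h1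
    · have hm := strictMono_of_hasDerivAt_pos hy (fun t => by
        have h1 := h.posg _ (hneg t).ne
        have h2 := hneg t
        have : g (γ t).1 < 0 := by nlinarith
        linarith)
      have h1 := hm hT
      simp only [hp0, lt_self_iff_false] at h1
  obtain ⟨t, ht⟩ := hx0
  have hne := ne_zero hU h hd hn t
  rcases lt_trichotomy (γ t).2 0 with hlt | heq | hgt
  · obtain ⟨t₂, B', w, -, -, h3, h4, -⟩ := half_mir hH h hT hd hp t ht hlt
    exact ⟨t₂, by rw [h3], by rw [h3]; exact h4.hB⟩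
  · exact absurd (Prod.ext ht heq) hne
  · exact ⟨t, ht, hgt⟩

theorem t_CYC (hU : S_UNI) (hH : S_HALF) (hC : S_CMP) (_ : S_EQ) : S_CYC := by
  intro Φ g h s C hC'
  obtain ⟨γ, T, hT, hd, hp, hn, rfl⟩ := hC'
  have hc : Continuous γ := continuous_iff_continuousAt.2 fun t => (hd t).continuousAt
  obtain ⟨t₀, hx0, hy0⟩ := exists_top hU hH h hT hd hp hn
  have step : ∀ z : {t : ℝ // (γ t).1 = 0 ∧ 0 < (γ t).2},
      ∃ z' : {t : ℝ // (γ t).1 = 0 ∧ 0 < (γ t).2}, Turn Φ g s γ z.1 z'.1 := fun z => by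
    obtain ⟨t₂, ht₂⟩ := exists_turn hH h hT hd hp z.1 z.2.1 z.2.2
    have hk := ht₂
    obtain ⟨t₁, B, u, w, -, -, -, -, -, -, a, b, -⟩ := ht₂
    exact ⟨⟨t₂, a, b⟩, hk⟩
  choose nx hnx using step
  obtain ⟨a, ha0, ha⟩ : ∃ a : ℕ → {t : ℝ // (γ t).1 = 0 ∧ 0 < (γ t).2},
      (a 0).1 = t₀ ∧ ∀ k, Turn Φ g s γ (a k).1 (a (k + 1)).1 := by
    refine ⟨fun k => nx^[k] ⟨t₀, hx0, hy0⟩, rfl, fun k => ?_⟩
    simp only [Function.iterate_succ_apply']
    exact hnx _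
  have hlt : ∀ k, (a k).1 < (a (k + 1)).1 := fun k => by
    obtain ⟨t₁, B, u, w, l1, l2, -⟩ := ha k
    exact l1.trans l2
  have hmono : StrictMono (fun k => (a k).1) := strictMono_nat_of_lt_succ hlt
  have hex : ∃ k, t₀ + T ≤ (a k).1 := by
    by_contra hcon
    push Not at hcon
    have hbdd : BddAbove (range fun k => (a k).1) :=
      ⟨t₀ + T, by rintro _ ⟨k, rfl⟩; exact (hcon k).le⟩
    have hlim := tendsto_atTop_ciSup hmono.monotone hbdd
    set L := ⨆ k, (a k).1 with hL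
    have hmid : ∀ k, ∃ b, (a k).1 < b ∧ b < (a (k + 1)).1 ∧ (γ b).2 < 0 := fun k => by
      obtain ⟨t₁, B, u, w, l1, l2, -, -, e, hB, -⟩ := ha k
      exact ⟨t₁, l1, l2, by rw [e]; simpa using hB⟩
    choose b hb1 hb2 hb3 using hmid
    have hb : Tendsto b atTop (𝓝 L) :=
      tendsto_of_tendsto_of_tendsto_of_le_of_le hlim ((tendsto_add_atTop_iff_nat 1).2 hlim)
        (fun k => (hb1 k).le) (fun k => (hb2 k).le)
    have h1 : (γ L).1 = 0 := by
      have e1 : Tendsto (fun k => (γ (a k).1).1) atTop (𝓝 (γ L).1) :=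
        (hc.fst.tendsto L).comp hlim
      have e2 : (fun k => (γ (a k).1).1) = fun _ => (0 : ℝ) := by
        funext k
        exact (a k).2.1
      rw [e2] at e1
      exact tendsto_nhds_unique tendsto_const_nhds e1 |>.symm
    have h2 : 0 ≤ (γ L).2 :=
      ge_of_tendsto' ((hc.snd.tendsto L).comp hlim) (fun k => (a k).2.2.le)
    have h3 : (γ L).2 ≤ 0 :=
      le_of_tendsto' ((hc.snd.tendsto L).comp hb) (fun k => (hb3 k).le)
    exact ne_zero hU h hd hn L (Prod.ext h1 (le_antisymm h3 h2))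
  obtain ⟨j, hj1, hj2⟩ : ∃ j, (a j).1 < t₀ + T ∧ t₀ + T ≤ (a (j + 1)).1 := by
    classical
    have hk := Nat.find_spec hex
    have hk0 : Nat.find hex ≠ 0 := fun h0 => by
      rw [h0, ha0] at hk
      linarith
    obtain ⟨j, hj⟩ := Nat.exists_eq_succ_of_ne_zero hk0
    refine ⟨j, ?_, ?_⟩
    · have := Nat.find_min hex (m := j) (by omega)
      push Not at this
      exact this
    · rw [hj] at hk
      exact hk
  have heq : (a (j + 1)).1 = t₀ + T := by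
    by_contra hne
    have : (γ (t₀ + T)).2 < 0 :=
      turn_no (ha j) ⟨hj1, lt_of_le_of_ne hj2 (Ne.symm hne)⟩ (by rw [hp]; exact hx0)
    rw [hp] at this
    linarith
  have hY : (γ (a (j + 1)).1).2 = (γ (a 0).1).2 := by rw [heq, hp, ha0]
  have h01 : (γ (a 1).1).2 = (γ (a 0).1).2 := by
    rcases lt_trichotomy (γ (a 1).1).2 (γ (a 0).1).2 with hlt' | heq' | hgt'
    · exfalso
      have hdec : ∀ k, (γ (a (k + 1)).1).2 < (γ (a k).1).2 := fun k => by
        induction k with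
        | zero => exact hlt'
        | succ k ih => exact turn_mono hC h (ha k) (ha (k + 1)) ih
      have h1 := strictAnti_nat_of_succ_lt (f := fun k => (γ (a k).1).2) hdec
        (Nat.succ_pos j)
      simp only [Nat.succ_eq_add_one] at h1
      linarith
    · exact heq'
    · exfalso
      have hinc : ∀ k, (γ (a k).1).2 < (γ (a (k + 1)).1).2 := fun k => by
        induction k with
        | zero => exact hgt'
        | succ k ih => exact turn_mono hC h (ha (k + 1)) (ha k) ih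
      have h1 := strictMono_nat_of_lt_succ (f := fun k => (γ (a k).1).2) hinc
        (Nat.succ_pos j)
      simp only [Nat.succ_eq_add_one] at h1
      linarith
  have h0t := ha 0
  rw [zero_add, ha0] at h0t
  rw [ha0] at h01
  obtain ⟨t₁, B, u, w, l1, l2, -, -, e1, hB, x2, y2, A1, A2, I1, I2⟩ := h0t
  refine ⟨B, (γ t₀).2, u, fun y => w (-y), ⟨A1, ?_⟩, ?_⟩
  · rw [h01] at A2
    simpa using A2
  · have hback : γ (a 1).1 = γ t₀ := Prod.ext (x2.trans hx0.symm) h01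
    have hper : Function.Periodic γ ((a 1).1 - t₀) := fun x => by
      have := hU Φ g h s γ γ hd hd _ _ hback (x - t₀)
      rw [add_sub_cancel] at this
      rw [← this]
      congr 1
      ring
    have hpos : 0 < (a 1).1 - t₀ := by linarith
    have himg : range γ = γ '' Icc t₀ (a 1).1 := by
      refine Subset.antisymm ?_ (image_subset_range _ _)
      rintro _ ⟨x, rfl⟩
      obtain ⟨y, hy, hxy⟩ := hper.exists_mem_Ico hpos x t₀
      rw [hxy]
      refine ⟨y, ⟨hy.1, ?_⟩, rfl⟩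
      have := hy.2
      linarith
    rw [himg, ← Icc_union_Icc_eq_Icc l1.le l2.le, image_union, I1, I2, h01]
    ext z
    simp only [crv, mem_union, mem_ofPred_eq]
    tauto

end Pool.Agent.J4H36.LI
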