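import Pool.Agent.J4H16.LI.Stm

/-! Project LI: the piece POL. -/

set_option autoImplicit false

open Set MeasureTheory Filter Topology
open scoped ENNReal

namespace Pool.Agent.J4H36.LI

open Pool.Agent.J4H16.LI

/-- On an interval without roots the integral of the absolute value is the increment. -/
lemma no_root {p : Polynomial ℝ} {c d : ℝ} (hcd : c ≤ d)
    (h : ∀ x ∈ Ioo c d, p.derivative.eval x ≠ 0) :
    ∫ x in c..d, |p.derivative.eval x| = |p.eval d - p.eval c| := by
  have hc : Continuous fun x => p.derivative.eval x := p.derivative.continuous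
  have hF : ∫ x in c..d, p.derivative.eval x = p.eval d - p.eval c :=
    intervalIntegral.integral_eq_sub_of_hasDerivAt (fun x _ => p.hasDerivAt x)
      (hc.intervalIntegrable _ _)
  have hsg : (∀ x ∈ Ioo c d, 0 < p.derivative.eval x) ∨
      (∀ x ∈ Ioo c d, p.derivative.eval x < 0) := by
    by_contra hcon
    push Not at hcon
    obtain ⟨⟨a, ha, ha'⟩, ⟨b, hb, hb'⟩⟩ := hcon
    obtain ⟨x, hx, hx'⟩ := (isPreconnected_Ioo.intermediate_value ha hb hc.continuousOn) ⟨ha', hb'⟩
    exact h x hx hx'
  rcases hsg with hpos | hneg
  · have e : ∫ x in c..d, |p.derivative.eval x| = ∫ x in c..d, p.derivative.eval x := by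
      rw [intervalIntegral.integral_of_le hcd, intervalIntegral.integral_of_le hcd,
        integral_Ioc_eq_integral_Ioo, integral_Ioc_eq_integral_Ioo]
      exact setIntegral_congr_fun measurableSet_Ioo fun x hx => abs_of_pos (hpos x hx)
    have h0 : 0 ≤ ∫ x in c..d, |p.derivative.eval x| :=
      intervalIntegral.integral_nonneg hcd fun x _ => abs_nonneg _
    rw [e, hF] at *
    rw [abs_of_nonneg h0]
  · have e : ∫ x in c..d, |p.derivative.eval x| = ∫ x in c..d, -p.derivative.eval x := by
      rw [intervalIntegral.integral_of_le hcd, intervalIntegral.integral_of_le hcd,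
        integral_Ioc_eq_integral_Ioo, integral_Ioc_eq_integral_Ioo]
      exact setIntegral_congr_fun measurableSet_Ioo fun x hx => abs_of_neg (hneg x hx)
    have h0 : 0 ≤ ∫ x in c..d, |p.derivative.eval x| :=
      intervalIntegral.integral_nonneg hcd fun x _ => abs_nonneg _
    rw [e, intervalIntegral.integral_neg, hF] at *
    rw [abs_of_nonpos (by linarith)]

theorem t_POL : S_POL := by
  classical
  intro n p hn b M hb hM hp
  by_cases hq : p.derivative = 0
  · rw [hq]
    simp only [Polynomial.eval_zero, abs_zero, intervalIntegral.integral_zero]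
    positivity
  have hn1 : 1 ≤ n := by
    by_contra hcon
    have h0 : p.natDegree = 0 := by omega
    rw [Polynomial.eq_C_of_natDegree_eq_zero h0, Polynomial.derivative_C] at hq
    exact hq rfl
  have hc : Continuous fun x => p.derivative.eval x := p.derivative.continuous
  have hinc : ∀ c d : ℝ, 0 ≤ c → c ≤ d → d ≤ b → |p.eval d - p.eval c| ≤ 2 * M * b := by
    intro c d h0 hcd hd
    have h1 := hp d ⟨h0.trans hcd, hd⟩
    have h2 := hp c ⟨h0, hcd.trans hd⟩
    have h3 : |p.eval d - p.eval c| ≤ |p.eval d - p.eval 0| + |p.eval c - p.eval 0| := by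
      calc |p.eval d - p.eval c| = |(p.eval d - p.eval 0) - (p.eval c - p.eval 0)| := by
            congr 1; ring
        _ ≤ _ := abs_sub _ _
    have h4 : M * d ≤ M * b := mul_le_mul_of_nonneg_left hd hM
    have h5 : M * c ≤ M * b := mul_le_mul_of_nonneg_left (hcd.trans hd) hM
    linarith
  have key : ∀ (k : ℕ) (c d : ℝ), 0 ≤ c → c ≤ d → d ≤ b →
      (p.derivative.roots.toFinset.filter (fun x => c < x ∧ x < d)).card ≤ k →
      ∫ x in c..d, |p.derivative.eval x| ≤ (k + 1) * (2 * M * b) := by
    intro k
    induction k with
    | zero =>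
      intro c d h0 hcd hd hk
      have hemp : p.derivative.roots.toFinset.filter (fun x => c < x ∧ x < d) = ∅ :=
        Finset.card_eq_zero.1 (Nat.le_zero.1 hk)
      rw [no_root hcd fun x hx hx0 => ?_]
      · have := hinc c d h0 hcd hd
        simpa using this
      · have : x ∈ p.derivative.roots.toFinset.filter (fun x => c < x ∧ x < d) := by
          rw [Finset.mem_filter, Multiset.mem_toFinset, Polynomial.mem_roots hq]
          exact ⟨hx0, hx⟩
        rw [hemp] at this
        exact absurd this (Finset.notMem_empty x)
    | succ k ih =>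
      intro c d h0 hcd hd hk
      by_cases hne : (p.derivative.roots.toFinset.filter (fun x => c < x ∧ x < d)).Nonempty
      · obtain ⟨r, hr⟩ : ∃ r, r = (p.derivative.roots.toFinset.filter
            (fun x => c < x ∧ x < d)).min' hne := ⟨_, rfl⟩
        have hrm := Finset.min'_mem _ hne
        rw [← hr, Finset.mem_filter] at hrm
        have hmin : ∀ x ∈ p.derivative.roots.toFinset.filter (fun x => c < x ∧ x < d), r ≤ x := by
          intro x hx
          rw [hr]
          exact Finset.min'_le _ x hx
        have h1 : ∫ x in c..r, |p.derivative.eval x| ≤ 2 * M * b := by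
          rw [no_root hrm.2.1.le fun x hx hx0 => ?_]
          · exact hinc c r h0 hrm.2.1.le (hrm.2.2.le.trans hd)
          · have : x ∈ p.derivative.roots.toFinset.filter (fun x => c < x ∧ x < d) := by
              rw [Finset.mem_filter, Multiset.mem_toFinset, Polynomial.mem_roots hq]
              exact ⟨hx0, hx.1, hx.2.trans hrm.2.2⟩
            exact absurd (hmin x this) (not_le.2 hx.2)
        have h2 : ∫ x in r..d, |p.derivative.eval x| ≤ (k + 1) * (2 * M * b) := by
          refine ih r d (h0.trans hrm.2.1.le) hrm.2.2.le hd ?_
          have hss : p.derivative.roots.toFinset.filter (fun x => r < x ∧ x < d) ⊂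
              p.derivative.roots.toFinset.filter (fun x => c < x ∧ x < d) := by
            rw [Finset.ssubset_iff_of_subset]
            · refine ⟨r, ?_, ?_⟩
              · rw [Finset.mem_filter]; exact hrm
              · rw [Finset.mem_filter]
                rintro ⟨-, h, -⟩
                exact lt_irrefl _ h
            · intro x hx
              rw [Finset.mem_filter] at hx ⊢
              exact ⟨hx.1, hrm.2.1.trans hx.2.1, hx.2.2⟩
          have := Finset.card_lt_card hss
          omega
        rw [← intervalIntegral.integral_add_adjacent_intervals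
          (hc.abs.intervalIntegrable c r) (hc.abs.intervalIntegrable r d)]
        push_cast
        linarith
      · rw [Finset.not_nonempty_iff_eq_empty] at hne
        have := ih c d h0 hcd hd (by rw [hne]; simp)
        have h2 : 0 ≤ 2 * M * b := by positivity
        push_cast
        linarith
  have hcard : (p.derivative.roots.toFinset.filter (fun x => 0 < x ∧ x < b)).card ≤ n - 1 := by
    calc (p.derivative.roots.toFinset.filter (fun x => 0 < x ∧ x < b)).card
        ≤ p.derivative.roots.toFinset.card := Finset.card_filter_le _ _
      _ ≤ Multiset.card p.derivative.roots := Multiset.toFinset_card_le _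
      _ ≤ p.derivative.natDegree := Polynomial.card_roots' _
      _ ≤ p.natDegree - 1 := Polynomial.natDegree_derivative_le p
      _ ≤ n - 1 := by omega
  have h := key (n - 1) 0 b le_rfl hb le_rfl hcard
  have e : (((n - 1 : ℕ) : ℝ) + 1) = n := by
    rw [Nat.cast_sub hn1]
    simp
  rw [e] at h
  calc ∫ x in (0 : ℝ)..b, |p.derivative.eval x| ≤ n * (2 * M * b) := h
    _ = 2 * n * M * b := by ring

end Pool.Agent.J4H36.LI
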