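import Pool.Agent.J4H16.LI.Stm5

set_option autoImplicit false

open Set MeasureTheory

namespace Pool.Agent.J4H36.LI

open Pool.Agent.J4H16.LI

theorem t_PT : S_TOP → S_PT := by
  intro hTOP F s₁ B₁ Y₁ s₂ B₂ Y₂ K u₁ u₂ h₁ h₂ hK hF₁ hF₂ hu hs hY hY2
  have hY₁ := h₁.hY
  have hY₂ := h₂.hY
  have hL : 0 < 1 + K := by linarith
  set x₀ : ℝ := Y₁ / (4 * (1 + K)) with hx₀
  have hx₀Y : 4 * (1 + K) * x₀ = Y₁ := by
    rw [hx₀]; field_simp
  have hx₀p : 0 < x₀ := by rw [hx₀]; positivity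
  have hKx : K * x₀ ≤ Y₁ / 4 := by nlinarith
  obtain ⟨w₁, a0, a1, a2, a3, a4⟩ := hTOP F s₁ B₁ Y₁ K x₀ u₁ h₁ hK hF₁ hx₀p (by linarith)
  obtain ⟨w₂, b0, b1, b2, b3, b4⟩ := hTOP F s₂ B₂ Y₂ K x₀ u₂ h₂ hK hF₂ hx₀p (by linarith)
  have hw : ∀ x ∈ Icc 0 x₀, w₁ x ≤ w₂ x := by
    intro x hx
    rcases hx.1.eq_or_lt with h | h
    · rw [← h, a0, b0]; exact hY
    · refine b4 x ⟨h, hx.2⟩ (w₁ x) ?_
      have := hu (w₁ x)
      rw [(a2 x hx).2.2] at this
      exact this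
  set P : ℝ := Y₁ * Y₂ with hP
  have hPp : 0 < P := mul_pos hY₁ hY₂
  set δ : ℝ := s₂ - s₁ with hδ
  have hδ0 : 0 ≤ δ := by linarith
  set a : ℝ := 16 / P with ha
  have hap : 0 < a := by rw [ha]; positivity
  have haP : a * P = 16 := by rw [ha]; field_simp
  set c : ℝ := 16 * δ / (25 * P) with hc
  have hc0 : 0 ≤ c := by rw [hc]; positivity
  have hcP : 25 * (c * P) = 16 * δ := by rw [hc]; field_simp
  have hax : a * x₀ ^ 2 ≤ 1 := by
    have h1 : P ≥ Y₁ ^ 2 := by rw [hP]; nlinarith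
    have h2 : Y₁ ^ 2 ≥ 16 * x₀ ^ 2 := by
      rw [← hx₀Y]
      have : (4 * (1 + K) * x₀) ^ 2 = 16 * x₀ ^ 2 * (1 + K) ^ 2 := by ring
      rw [this]
      have h3 : 1 ≤ (1 + K) ^ 2 := by nlinarith
      nlinarith [sq_nonneg x₀]
    have h3 : 16 * x₀ ^ 2 ≤ P := by linarith
    rw [ha, div_mul_eq_mul_div, div_le_one hPp]
    exact h3
  set D : ℝ → ℝ := fun x => w₂ x - w₁ x with hD
  have hD0 : ∀ x ∈ Icc 0 x₀, 0 ≤ D x := fun x hx => by
    have := hw x hx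
    simp only [hD]; linarith
  set E : ℝ → ℝ := fun x => D x * (1 - a * x ^ 2) + c * (x ^ 3 / 3 - a * (x ^ 5 / 5)) with hE
  have hder : ∀ x ∈ Ioo 0 x₀, ∃ E' : ℝ, HasDerivAt E E' x ∧ E' ≤ 0 := by
    intro x hx
    have hxI : x ∈ Icc 0 x₀ := ⟨hx.1.le, hx.2.le⟩
    have hxp : 0 < x := hx.1
    obtain ⟨c1, c2, c3⟩ := a2 x hxI
    obtain ⟨d1, d2, d3⟩ := b2 x hxI
    have e1 := hF₁ (w₁ x)
    rw [c3] at e1
    have e2 := hF₂ (w₂ x)
    rw [d3] at e2
    obtain ⟨e3, e4⟩ := abs_le.1 e1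
    obtain ⟨e5, e6⟩ := abs_le.1 e2
    have hKx' : K * x ≤ Y₁ / 4 := by
      have : K * x ≤ K * x₀ := mul_le_mul_of_nonneg_left hx.2.le hK
      linarith
    set g₁ : ℝ := w₁ x - F x - s₁ * x with hg₁
    set g₂ : ℝ := w₂ x - F x - s₂ * x with hg₂
    have g1l : Y₁ / 4 ≤ g₁ := by rw [hg₁]; linarith
    have g1u : g₁ ≤ 5 / 4 * Y₁ := by rw [hg₁]; linarith
    have g2l : Y₂ / 4 ≤ g₂ := by rw [hg₂]; linarith
    have g2u : g₂ ≤ 5 / 4 * Y₂ := by rw [hg₂]; linarith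
    have g1p : 0 < g₁ := by linarith
    have g2p : 0 < g₂ := by linarith
    have hgl : P / 16 ≤ g₁ * g₂ := by
      have := mul_le_mul g1l g2l (by positivity) g1p.le
      rw [hP]; linarith
    have hgu : g₁ * g₂ ≤ 25 / 16 * P := by
      have := mul_le_mul g1u g2u g2p.le (by positivity)
      rw [hP]; linarith
    have hgp : 0 < g₁ * g₂ := mul_pos g1p g2p
    set t : ℝ := 1 / (g₁ * g₂) with ht
    have htp : 0 < t := by rw [ht]; positivity
    have ht1 : t ≤ a := by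
      rw [ht, ha, div_le_div_iff₀ hgp hPp]
      linarith
    have ht2 : 16 / (25 * P) ≤ t := by
      rw [ht, div_le_div_iff₀ (by positivity) hgp]
      linarith
    have hDx := hD0 x hxI
    have hdD : HasDerivAt D (x * (D x - δ * x) * t) x := by
      have h3 := (b3 x hx).sub (a3 x hx)
      have h4 : x * (D x - δ * x) * t = -x / (w₂ x - F x - s₂ * x) - -x / (w₁ x - F x - s₁ * x) := by
        rw [← hg₁, ← hg₂, ht]
        have : D x - δ * x = g₂ - g₁ := by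
          rw [hg₁, hg₂, hδ]; simp only [hD]; ring
        rw [this]
        field_simp
        ring
      rw [h4]
      exact h3
    have hdW : HasDerivAt (fun x : ℝ => 1 - a * x ^ 2) (-(a * (2 * x))) x :=
      (((hasDerivAt_pow 2 x).const_mul a).const_sub 1).congr_deriv (by push_cast; ring)
    have hdV : HasDerivAt (fun x : ℝ => c * (x ^ 3 / 3 - a * (x ^ 5 / 5)))
        (c * (x ^ 2 - a * x ^ 4)) x :=
      ((((hasDerivAt_pow 3 x).div_const 3).fun_sub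
        (((hasDerivAt_pow 5 x).div_const 5).const_mul a)).const_mul c).congr_deriv
        (by push_cast; ring)
    refine ⟨_, (hdD.mul hdW).add hdV, ?_⟩
    have hax' : a * x ^ 2 ≤ 1 := by
      have : x ^ 2 ≤ x₀ ^ 2 := pow_le_pow_left₀ hxp.le hx.2.le 2
      have := mul_le_mul_of_nonneg_left this hap.le
      linarith
    have k1 : x * (D x - δ * x) * t ≤ a * x * D x - c * x ^ 2 := by
      have k2 : x * D x * t ≤ x * D x * a := mul_le_mul_of_nonneg_left ht1 (by positivity)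
      have k3 : c * x ^ 2 ≤ δ * x ^ 2 * t := by
        have k4 : δ * x ^ 2 * (16 / (25 * P)) ≤ δ * x ^ 2 * t :=
          mul_le_mul_of_nonneg_left ht2 (by positivity)
        have k5 : c * x ^ 2 = δ * x ^ 2 * (16 / (25 * P)) := by rw [hc]; ring
        rw [k5]; exact k4
      have k6 : x * (D x - δ * x) * t = x * D x * t - δ * x ^ 2 * t := by ring
      rw [k6]; linarith
    have k7 : x * (D x - δ * x) * t * (1 - a * x ^ 2)
        ≤ (a * x * D x - c * x ^ 2) * (1 - a * x ^ 2) :=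
      mul_le_mul_of_nonneg_right k1 (by linarith)
    have k8 : 0 ≤ a * x * D x * (1 + a * x ^ 2) := by positivity
    have k9 : (a * x * D x - c * x ^ 2) * (1 - a * x ^ 2) + D x * (-(a * (2 * x))) +
        c * (x ^ 2 - a * x ^ 4) = -(a * x * D x * (1 + a * x ^ 2)) := by ring
    linarith
  have hcont : ContinuousOn E (Icc 0 x₀) := by
    have : ContinuousOn D (Icc 0 x₀) := b1.sub a1
    exact (this.mul (by fun_prop)).add (by fun_prop)
  have hanti : AntitoneOn E (Icc 0 x₀) := by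
    apply antitoneOn_of_deriv_nonpos (convex_Icc 0 x₀) hcont
    · rw [interior_Icc]
      intro x hx
      obtain ⟨E', h, _⟩ := hder x hx
      exact h.differentiableAt.differentiableWithinAt
    · rw [interior_Icc]
      intro x hx
      obtain ⟨E', h, h'⟩ := hder x hx
      rw [h.deriv]; exact h'
  have hfin := hanti (left_mem_Icc.2 hx₀p.le) (right_mem_Icc.2 hx₀p.le) hx₀p.le
  have hE0 : E 0 = Y₂ - Y₁ := by
    simp only [hE, hD]; rw [a0, b0]; ring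
  rw [hE0] at hfin
  have hDx₀ := hD0 x₀ (right_mem_Icc.2 hx₀p.le)
  have h1 : c * x₀ ^ 3 * (2 / 15) ≤ Y₂ - Y₁ := by
    have h2 : c * x₀ ^ 3 * (2 / 15) ≤ c * (x₀ ^ 3 / 3 - a * (x₀ ^ 5 / 5)) := by
      have h3 : c * (x₀ ^ 3 / 3 - a * (x₀ ^ 5 / 5)) = c * x₀ ^ 3 * (1 / 3 - a * x₀ ^ 2 / 5) := by
        ring
      rw [h3]
      exact mul_le_mul_of_nonneg_left (by linarith) (by positivity)
    have h4 : 0 ≤ D x₀ * (1 - a * x₀ ^ 2) := mul_nonneg hDx₀ (by linarith)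
    have h5 : E x₀ = D x₀ * (1 - a * x₀ ^ 2) + c * (x₀ ^ 3 / 3 - a * (x₀ ^ 5 / 5)) := rfl
    linarith
  -- the constants
  set d : ℝ := Y₂ - Y₁ with hd
  have hd0 : 0 ≤ d := by rw [hd]; linarith
  have h2 : 16 * δ * x₀ ^ 3 * (2 / 15) ≤ 25 * P * d := by
    have h3 : 25 * P * (c * x₀ ^ 3 * (2 / 15)) ≤ 25 * P * d :=
      mul_le_mul_of_nonneg_left h1 (by positivity)
    have h4 : 25 * P * (c * x₀ ^ 3 * (2 / 15)) = (25 * (c * P)) * x₀ ^ 3 * (2 / 15) := by ring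
    rw [h4, hcP] at h3
    exact h3
  have h3 : P ≤ 2 * Y₁ ^ 2 := by rw [hP]; nlinarith
  have h4 : 25 * P * d ≤ 50 * Y₁ ^ 2 * d := by
    have := mul_le_mul_of_nonneg_right h3 hd0
    linarith
  have h5 : Y₁ ^ 2 = 16 * (1 + K) ^ 2 * x₀ ^ 2 := by rw [← hx₀Y]; ring
  have h6 : x₀ ^ 2 * (δ * x₀) ≤ x₀ ^ 2 * (375 * (1 + K) ^ 2 * d) := by
    rw [h5] at h4
    linarith
  have h7 : δ * x₀ ≤ 375 * (1 + K) ^ 2 * d := le_of_mul_le_mul_left h6 (by positivity)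
  have h8 : δ * Y₁ ≤ 1500 * (1 + K) ^ 3 * d := by
    rw [← hx₀Y]
    have h9 := mul_le_mul_of_nonneg_left h7 (by positivity : 0 ≤ 4 * (1 + K))
    linarith
  have h9 : 0 ≤ (1 + K) ^ 3 * d := by positivity
  linarith

end Pool.Agent.J4H36.LI
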